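import Pool.Graph.R_seed8.H447R3.DegDefs
import Pool.Graph.R_seed8.H914R2.CorrDefs
import Pool.Graph.R_seed8.H914R2.StdDefs

/-!
# Definitions for `MP_5f0950_ag.CompleteIntersections`
-/

set_option autoImplicit false

open CategoryTheory AlgebraicGeometry

universe u v

namespace Pool.Agent.Helper4.LS

open Pool.Agent.H914 VarClass Obj WeilCohomology Pool.Agent.H447

/-- The classes of degree `2 j` on `Y` which are images `Γ_* a`, under algebraic cycles `Γ` on
`T × Y`, of classes `a` of degree `2 i` on varieties `T` with `P T i`. -/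
def Images {k : Type u} [Field k] {𝒱 : VarClass k} {ops : CycleOps 𝒱}
    (W : WeilCohomology.{u, v} ops) (P : 𝒱.Obj → ℕ → Prop) (Y : 𝒱.Obj) (j : ℕ) : Set (W.H Y) :=
  {b | ∃ (T : 𝒱.Obj) (i p : ℕ) (Γ : (T.prod Y).Cycles) (a : W.H T), i ≤ T.dim ∧ P T i ∧
    (T.prod Y).IsCyc p Γ ∧ p + i = T.dim + j ∧ a ∈ W.gr T (2 * i) ∧
    W.corr (W.cl _ Γ) a = b}

/-- The cohomology of `Y` in the even degrees `2 j < dim Y` is spanned by images, under algebraic
correspondences, of the cohomology in degree `2 i` of varieties `T` with `P T i`. -/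
def SpannedBelow {k : Type u} [Field k] {𝒱 : VarClass k} {ops : CycleOps 𝒱}
    (W : WeilCohomology.{u, v} ops) (P : 𝒱.Obj → ℕ → Prop) (Y : 𝒱.Obj) : Prop :=
  ∀ j, 2 * j < Y.dim → W.gr Y (2 * j) ≤ Submodule.span W.K (Images W P Y j)

/-- The classes on `X × X` which are carried by pairs `(V, Y)` with `P V Y`: the direct images,
under `f × g : V × Y → X × X` for morphisms `f : V → X` and `g : Y → X`, of the classes of the
cycles on `V × Y` of dimension `dim X`. -/
def Carried {k : Type u} [Field k] {𝒱 : VarClass k} {ops : CycleOps 𝒱}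
    (W : WeilCohomology.{u, v} ops) (X : 𝒱.Obj) (P : 𝒱.Obj → 𝒱.Obj → Prop) :
    Set (W.H (X.prod X)) :=
  {c | ∃ (V Y : 𝒱.Obj) (f : V ⟶ X) (g : Y ⟶ X) (p : ℕ) (Γ : (V.prod Y).Cycles), P V Y ∧
    (V.prod Y).IsCyc p Γ ∧ p + X.dim = V.dim + Y.dim ∧
    W.push (Obj.lift (fst V Y ≫ f) (snd V Y ≫ g)) (W.cl _ Γ) = c}

/-- The diagonal of `X` decomposes (in cohomology): its class is a linear combination of direct
images of classes of cycles on `V × Y`, of dimension `dim X`, under `f × g : V × Y → X × X`, where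
* `dim V + dim Y ≤ dim X + e`, or
* homological and numerical equivalence coincide on `V` or on `Y`, or
* `dim V ≤ dim X - s - 1`. -/
def DiagonalDecomposes {k : Type u} [Field k] {𝒱 : VarClass k} {ops : CycleOps 𝒱}
    (W : WeilCohomology.{u, v} ops) (X : 𝒱.Obj) (e s : ℕ) : Prop :=
  W.cl (X.prod X) (ops.push (diag X) X.V.fundCycle) ∈
    Submodule.span W.K (Carried W X fun V Y =>
      V.dim + Y.dim ≤ X.dim + e ∨ HomEqNum W V ∨ HomEqNum W Y ∨ V.dim + s < X.dim)

/-- The pairs `(T, i)` such that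
* homological and numerical equivalence coincide on `T`, or
* `i ≤ b`, or
* `dim T ≤ i + a`, or
* the diagonal of `T` decomposes, with `s ≥ i - b - 1`. -/
def Known {k : Type u} [Field k] {𝒱 : VarClass k} {ops : CycleOps 𝒱}
    (W : WeilCohomology.{u, v} ops) (a b : ℕ) (T : 𝒱.Obj) (i : ℕ) : Prop :=
  HomEqNum W T ∨ i ≤ b ∨ T.dim ≤ i + a ∨
    ∃ s, i ≤ s + b + 1 ∧ DiagonalDecomposes W T (a + b + 1) s

/-- The restriction from `X` to `Y` is surjective in the even degrees below the dimension of `Y`. -/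
def EvenLefschetz {k : Type u} [Field k] {𝒱 : VarClass k} {ops : CycleOps 𝒱}
    (W : WeilCohomology.{u, v} ops) {X Y : 𝒱.Obj} (f : Y ⟶ X) : Prop :=
  ∀ j, 2 * j < Y.dim → ∀ b ∈ W.gr Y (2 * j), ∃ a, W.map f a = b

end Pool.Agent.Helper4.LS
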