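import Pool.Agent.Helper4.LS.Low

/-!
# Known cases of conjecture D as sources
-/

set_option autoImplicit false

open CategoryTheory AlgebraicGeometry

universe u v

namespace Pool.Agent.Helper4.LS

open Pool.Agent.H914 VarClass Obj WeilCohomology Pool.Agent.H447 Pool.Agent.K7.H8
open Pool.Agent.Y133.Hdg (HodgeStr HodgeIn IsPolarization)

variable {k : Type u} [Field k] {𝒱 : VarClass k} {ops : CycleOps 𝒱}
  {W : WeilCohomology.{u, v} ops} {X Y T : 𝒱.Obj}

/-- zero cycles -/
lemma homEqNumIn_top : HomEqNumIn W Y Y.dim := by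
  rw [homEqNumIn_iff]
  intro z hz
  apply W.nondeg
  intro b
  refine gr_induction (W.isInternal Y) (p := fun b => W.tr Y (W.cl Y z * b) = 0) ?_ ?_ b
  · intro l b hb
    by_cases hl : l = 0
    · subst hl
      rw [W.gr_zero, Submodule.mem_span_singleton] at hb
      obtain ⟨r, rfl⟩ := hb
      have h1 := hz.2 Y.V.fundCycle (by
        rw [Nat.sub_self]
        exact SmVar.fundCycle_mem Y.V)
      rw [W.cl_fund] at h1
      rw [mul_smul_comm, map_smul, h1, smul_zero]
    · exact W.tr_eq_zero (W.mul_mem (W.cl_mem hz.1) hb) (by omega)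
  · intro a b ha hb
    rw [mul_add, map_add, ha, hb, add_zero]

lemma known_transported {a b : ℕ} (ha : ∀ Y : 𝒱.Obj, ∀ i ≤ a, HomEqNumIn W Y i)
    (hb : ∀ Y : 𝒱.Obj, ∀ i, Y.dim ≤ i + b → HomEqNumIn W Y i) {i : ℕ} (hi : i ≤ T.dim)
    (h : HomEqNum W T ∨ i ≤ b ∨ T.dim ≤ i + a ∨ ∃ s, i ≤ s + b + 1 ∧
      W.push (diag T) 1 ∈ Submodule.span W.K (carriedBy W T fun V Y =>
        V.dim + Y.dim ≤ T.dim + (a + b + 1) ∨ HomEqNum W V ∨ HomEqNum W Y ∨ V.dim + s < T.dim))
    (x : W.H T) (hx : x ∈ W.gr T (2 * i)) : x ∈ Submodule.span W.K (Transported W T i) := by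
  rcases h with h | h | h | ⟨s, hs, h⟩
  · exact Submodule.subset_span (transported_of_homEqNumIn hi (homEqNum_iff.1 h _) hx)
  · exact Submodule.subset_span (transported_of_homEqNumIn hi (hb T _ (by omega)) hx)
  · exact Submodule.subset_span (transported_of_homEqNumIn hi (ha T _ (by omega)) hx)
  · refine transported_of_diag hi h (fun V Y hP => ?_) hx
    rcases hP with hP | hP | hP | hP
    · by_cases h1 : Y.dim ≤ i + a
      · exact Or.inl fun _ => ha Y _ (by omega)
      · exact Or.inr fun _ => hb V _ (by omega)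
    · exact Or.inr fun _ => homEqNum_iff.1 hP _
    · exact Or.inl fun _ => homEqNum_iff.1 hP _
    · exact Or.inr fun _ => hb V _ (by omega)

end Pool.Agent.Helper4.LS
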