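import Pool.Graph.R_pool_sql_team_seeded_35f281b4.K7.H8.DHdg
import Pool.Graph.R_pool_sql_team_seeded_35f281b4.K7.H8.DTransfer

/-!
# Conjecture D and the even cohomology below the middle degree
-/

set_option autoImplicit false

open CategoryTheory AlgebraicGeometry

universe u v

namespace Pool.Agent.Helper4.LS

open Pool.Agent.H914 VarClass Obj WeilCohomology Pool.Agent.H447 Pool.Agent.K7.H8
open Pool.Agent.Y133.Hdg (HodgeStr HodgeIn IsPolarization)

variable {k : Type u} [Field k] {𝒱 : VarClass k} {ops : CycleOps 𝒱}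

/-- The classes of degree `2 j` on `Y` which are images, under algebraic correspondences, of
classes of degree `2 i` on varieties `T` with `P T i`. -/
def imagesOf (W : WeilCohomology.{u, v} ops) (P : 𝒱.Obj → ℕ → Prop) (Y : 𝒱.Obj) (j : ℕ) :
    Set (W.H Y) :=
  {b | ∃ (T : 𝒱.Obj) (i p : ℕ) (Γ : (T.prod Y).Cycles) (a : W.H T), i ≤ T.dim ∧ P T i ∧
    (T.prod Y).IsCyc p Γ ∧ p + i = T.dim + j ∧ a ∈ W.gr T (2 * i) ∧ W.corr (W.cl _ Γ) a = b}

/-- Conjecture D for the cycles of dimension `i` on `T`. -/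
def DimD (W : WeilCohomology.{u, v} ops) (T : 𝒱.Obj) (i : ℕ) : Prop :=
  HomEqNumIn W T (T.dim - i)

/-- The classes in `H^(2j)(Y)` which come from varieties with the conjecture D in some dimension -/
abbrev Transported (W : WeilCohomology.{u, v} ops) (Y : 𝒱.Obj) (j : ℕ) : Set (W.H Y) :=
  imagesOf W (DimD W) Y j

variable {W : WeilCohomology.{u, v} ops} {X Y T : 𝒱.Obj} {j : ℕ}

lemma NT.smul_cl {z : Y.Cycles} (hz : NT W Y j z) : W.cl Y z ∈ W.gr Y (2 * j) := W.cl_mem hz.1

/-- a numerically trivial cycle is orthogonal to all transported classes -/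
lemma tr_transported (hj : j ≤ Y.dim) {z : Y.Cycles} (hz : NT W Y (Y.dim - j) z) {b : W.H Y}
    (hb : b ∈ Transported W Y j) : W.tr Y (W.cl Y z * b) = 0 := by
  obtain ⟨T, i, p, Γ, a, hi, hT, hΓ, hp, ha, rfl⟩ := hb
  have hm := W.cl_mem hz.1
  rw [W.even_comm hm, corr_apply, W.tr_push, mul_assoc,
    ← W.even_comm (W.map_mem (snd T Y) hm), ← mul_assoc, ← W.tr_push]
  rw [transfer_left (by omega) hz hΓ, zero_mul, map_zero]
  intro q hq
  have h1 : q = T.dim - i := by omega
  rw [h1]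
  exact hT

/-- Conjecture D for cycles of dimension `j` on `Y` if the cohomology in degree `2 j` is spanned by
transported classes -/
lemma homEqNumIn_of_transported (hj : j ≤ Y.dim)
    (h : ∀ b ∈ W.gr Y (2 * j), b ∈ Submodule.span W.K (Transported W Y j)) :
    HomEqNumIn W Y (Y.dim - j) := by
  rw [homEqNumIn_iff]
  intro z hz
  apply W.nondeg
  intro b
  refine gr_induction (W.isInternal Y) (p := fun b => W.tr Y (W.cl Y z * b) = 0) ?_ ?_ b
  · intro l b hb
    by_cases hl : l = 2 * j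
    · subst hl
      have h1 := h b hb
      clear hb
      induction h1 using Submodule.span_induction with
      | mem x hx => exact tr_transported hj hz hx
      | zero => rw [mul_zero, map_zero]
      | add x y _ _ hx hy => rw [mul_add, map_add, hx, hy, add_zero]
      | smul r x _ hx => rw [mul_smul_comm, map_smul, hx, smul_zero]
    · exact W.tr_eq_zero (W.mul_mem (W.cl_mem hz.1) hb) (by omega)
  · intro a b ha hb
    rw [mul_add, map_add, ha, hb, add_zero]

lemma transported_of_homEqNumIn (hj : j ≤ Y.dim) (h : HomEqNumIn W Y (Y.dim - j)) {b : W.H Y}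
    (hb : b ∈ W.gr Y (2 * j)) : b ∈ Transported W Y j := by
  refine ⟨Y, j, Y.dim, ops.push (diag Y) Y.V.fundCycle, b, hj, h,
    ops.push_mem _ (SmVar.fundCycle_mem Y.V) (by rw [dim_prod]; omega), rfl, hb, ?_⟩
  rw [W.cl_push, W.cl_fund, W.corr_diag, one_mul]

lemma push_transported (f : T ⟶ Y) {i : ℕ} (hi : i ≤ T.dim) (h : HomEqNumIn W T (T.dim - i))
    (hij : i + Y.dim = j + T.dim) {a : W.H T} (ha : a ∈ W.gr T (2 * i)) :
    W.push f a ∈ Transported W Y j := by
  refine ⟨T, i, Y.dim, ops.push (Obj.lift (𝟙 T) f) T.V.fundCycle, a, hi, h,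
    ops.push_mem _ (SmVar.fundCycle_mem T.V) (by rw [dim_prod]; omega), by omega, ha, ?_⟩
  rw [W.cl_push, W.cl_fund, corr_apply, ← W.push_mul, ← W.push_comp, ← W.map_comp]
  have e1 : Obj.lift (𝟙 T) f ≫ snd T Y = f := Obj.lift_snd _ _
  have e2 : Obj.lift (𝟙 T) f ≫ fst T Y = 𝟙 T := Obj.lift_fst _ _
  rw [e1, e2, W.map_id, one_mul]

/-- The morphism `id × f`. -/
noncomputable def idMap (T : 𝒱.Obj) (f : Y ⟶ X) : T.prod Y ⟶ T.prod X :=
  Obj.lift (fst T Y) (snd T Y ≫ f)

lemma base_change' (f : Y ⟶ X) (c : W.H (T.prod X)) :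
    W.map f (W.push (snd T X) c) = W.push (snd T Y) (W.map (idMap T f) c) := by
  refine W.kunneth_induction (p := fun c => W.map f (W.push (snd T X) c) =
    W.push (snd T Y) (W.map (idMap T f) c)) ?_ ?_ c
  · intro a b ha hb
    simp only [map_add, ha, hb]
  · intro i j a _ b _
    rw [W.push_snd, map_smul, map_mul, ← W.map_comp, ← W.map_comp]
    have e1 : idMap T f ≫ fst T X = fst T Y := Obj.lift_fst _ _
    have e2 : idMap T f ≫ snd T X = snd T Y ≫ f := Obj.lift_snd _ _
    rw [e1, e2, W.map_comp, W.push_snd]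

lemma map_transported (f : Y ⟶ X) {b : W.H X} (hb : b ∈ Transported W X j) :
    W.map f b ∈ Transported W Y j := by
  obtain ⟨T, i, p, Γ, a, hi, hT, hΓ, hp, ha, rfl⟩ := hb
  refine ⟨T, i, p, ops.pull (idMap T f) Γ, a, hi, hT, ops.pull_mem _ hΓ, hp, ha, ?_⟩
  rw [corr_apply, corr_apply, base_change', map_mul (W.map (idMap T f)), W.cl_pull, ← W.map_comp]
  have e1 : idMap T f ≫ fst T X = fst T Y := Obj.lift_fst _ _
  rw [e1]

lemma map_span (f : Y ⟶ X) {b : W.H X} (hb : b ∈ Submodule.span W.K (Transported W X j)) :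
    W.map f b ∈ Submodule.span W.K (Transported W Y j) := by
  induction hb using Submodule.span_induction with
  | mem x hx => exact Submodule.subset_span (map_transported f hx)
  | zero => rw [map_zero]; exact Submodule.zero_mem _
  | add x y _ _ hx hy => rw [map_add]; exact Submodule.add_mem _ hx hy
  | smul r x _ hx => rw [map_smul]; exact Submodule.smul_mem _ _ hx

lemma corr_transported {S : 𝒱.Obj} {i p : ℕ} {Γ : (S.prod Y).Cycles} (hΓ : (S.prod Y).IsCyc p Γ)
    (hp : p + i = S.dim + j) {x : W.H S} (hx : x ∈ Transported W S i) :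
    W.corr (W.cl _ Γ) x ∈ Transported W Y j := by
  obtain ⟨T, l, r, Δ, a, hl, hT, hΔ, hr, ha, rfl⟩ := hx
  refine ⟨T, l, T.dim + j - l, ops.push (p13 T S Y) (ops.mul (ops.pull (p12 T S Y) Δ)
    (ops.pull (p23 T S Y) Γ)), a, hl, hT, ?_, by omega, ha, ?_⟩
  · refine ops.push_mem _ (ops.mul_mem (ops.pull_mem _ hΔ) (ops.pull_mem _ hΓ)) ?_
    simp only [dim_prod]
    omega
  · rw [W.cl_push, W.cl_mul, W.cl_pull, W.cl_pull, W.corr_comp _ (W.cl_mem hΓ),
      LinearMap.comp_apply]

lemma corr_span {S : 𝒱.Obj} {i p : ℕ} {Γ : (S.prod Y).Cycles} (hΓ : (S.prod Y).IsCyc p Γ)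
    (hp : p + i = S.dim + j) {x : W.H S} (hx : x ∈ Submodule.span W.K (Transported W S i)) :
    W.corr (W.cl _ Γ) x ∈ Submodule.span W.K (Transported W Y j) := by
  induction hx using Submodule.span_induction with
  | mem x hx => exact Submodule.subset_span (corr_transported hΓ hp hx)
  | zero => rw [map_zero]; exact Submodule.zero_mem _
  | add x y _ _ hx hy => rw [map_add]; exact Submodule.add_mem _ hx hy
  | smul r x _ hx => rw [map_smul]; exact Submodule.smul_mem _ _ hx

/-- images of varieties whose cohomology is transported -/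
lemma span_imagesOf {P : 𝒱.Obj → ℕ → Prop}
    (hP : ∀ T i, i ≤ T.dim → P T i → ∀ a ∈ W.gr T (2 * i),
      a ∈ Submodule.span W.K (Transported W T i)) {b : W.H Y}
    (hb : b ∈ Submodule.span W.K (imagesOf W P Y j)) :
    b ∈ Submodule.span W.K (Transported W Y j) := by
  refine Submodule.span_le.2 ?_ hb
  rintro _ ⟨T, i, p, Γ, a, hi, hT, hΓ, hp, ha, rfl⟩
  exact corr_span hΓ hp (hP T i hi hT a ha)

/-- decompositions of the diagonal and transported classes -/
lemma transported_of_diag {P : 𝒱.Obj → 𝒱.Obj → Prop} (hj : j ≤ X.dim)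
    (hX : W.push (diag X) 1 ∈ Submodule.span W.K (carriedBy W X P))
    (h : ∀ V Y, P V Y → (j ≤ Y.dim → HomEqNumIn W Y (Y.dim - j)) ∨
      (X.dim ≤ j + V.dim → HomEqNumIn W V (X.dim - j))) {a : W.H X}
    (ha : a ∈ W.gr X (2 * j)) : a ∈ Submodule.span W.K (Transported W X j) := by
  rw [← act_diag_left (W := W) (X := X) a]
  generalize W.push (diag X) 1 = δ at hX
  induction hX using Submodule.span_induction with
  | mem c hc =>
    obtain ⟨V, Y, f, g, p, Γ, hP, hΓ, hp, rfl⟩ := hc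
    have hd : (V.prod Y).dim = V.dim + Y.dim := rfl
    rw [act_left]
    have hga : W.map g a ∈ W.gr Y (2 * j) := W.map_mem g ha
    by_cases hjY : j ≤ Y.dim
    swap
    · rw [W.gr_eq_bot Y _ (by omega)] at hga
      rw [(Submodule.mem_bot _).1 hga, map_zero, mul_zero, map_zero, map_zero]
      exact Submodule.zero_mem _
    rcases h V Y hP with h1 | h1
    · apply Submodule.subset_span
      refine ⟨Y, j, Y.dim, ops.push (Obj.lift (snd V Y) (fst V Y ≫ f)) Γ, W.map g a, hjY,
        h1 hjY, ops.push_mem _ hΓ (by rw [dim_prod, hd]; omega), by omega, hga, ?_⟩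
      rw [corr_apply, W.cl_push, ← W.push_mul, ← W.push_comp, ← W.map_comp]
      have e1 : Obj.lift (snd V Y) (fst V Y ≫ f) ≫ snd Y X = fst V Y ≫ f := Obj.lift_snd _ _
      have e2 : Obj.lift (snd V Y) (fst V Y ≫ f) ≫ fst Y X = snd V Y := Obj.lift_fst _ _
      rw [e1, e2, W.push_comp]
    · -- the class on `V`
      have hm : W.cl _ Γ * W.map (snd V Y) (W.map g a) ∈ W.gr (V.prod Y) (2 * p + 2 * j) :=
        W.mul_mem (W.cl_mem hΓ) (W.map_mem _ hga)
      by_cases hV : X.dim ≤ j + V.dim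
      swap
      · rw [push_eq_zero_of_lt _ hm (by rw [hd]; omega), map_zero]
        exact Submodule.zero_mem _
      obtain ⟨i, hi⟩ : ∃ i, i + X.dim = j + V.dim := ⟨j + V.dim - X.dim, by omega⟩
      have h2 : W.push (fst V Y) (W.cl _ Γ * W.map (snd V Y) (W.map g a)) ∈
          W.gr V (2 * i) := by
        have h3 := W.push_mem (fst V Y) hm
        have e : ((2 * p + 2 * j : ℕ) : ℤ) + 2 * ((V.dim : ℤ) - (V.prod Y).dim) =
            ((2 * i : ℕ) : ℤ) := by
          rw [hd]; push_cast; omega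
        rw [e, grZ_natCast] at h3
        exact h3
      apply Submodule.subset_span
      refine push_transported f (i := i) (by omega) ?_ (by omega) h2
      have e3 : V.dim - i = X.dim - j := by omega
      rw [e3]
      exact h1 hV
  | zero => rw [zero_mul, map_zero]; exact Submodule.zero_mem _
  | add a b _ _ ha hb => rw [add_mul, map_add]; exact Submodule.add_mem _ ha hb
  | smul r a _ ha => rw [smul_mul_assoc, map_smul]; exact Submodule.smul_mem _ _ ha

/-- hard Lefschetz: conjecture D in dimension `j` implies it in codimension `j` -/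
lemma homEqNumIn_of_hard {L : Y.Cycles} (hL : Y.IsCyc 1 L)
    (hHL : HardLef (W.gr Y) Y.dim (LinearMap.mulLeft W.K (W.cl Y L))) (hj : 2 * j ≤ Y.dim)
    (h : HomEqNumIn W Y (Y.dim - j)) : HomEqNumIn W Y j := by
  rw [homEqNumIn_iff] at h ⊢
  intro z hz
  -- the power of the polarization
  have hpow : ∀ n, ∃ z', Y.IsCyc n z' ∧ W.cl Y z' = W.cl Y L ^ n := by
    intro n
    induction n with
    | zero => exact ⟨_, SmVar.fundCycle_mem Y.V, by rw [W.cl_fund, pow_zero]⟩
    | succ n ih =>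
      obtain ⟨z', h1, h2⟩ := ih
      exact ⟨ops.mul z' L, ops.mul_mem h1 hL, by rw [W.cl_mul, h2, pow_succ]⟩
  obtain ⟨z', h1, h2⟩ := hpow (Y.dim - 2 * j)
  have h3 := h _ (by
    have := hz.mul h1 (by omega)
    rwa [show Y.dim - 2 * j + j = Y.dim - j by omega] at this)
  rw [W.cl_mul, h2] at h3
  refine (hHL (2 * j) hj).1 _ (W.cl_mem hz.1) ?_
  rw [LinearMap.pow_mulLeft, LinearMap.mulLeft_apply]
  exact h3

/-- the middle degree, by the Hodge-Riemann relations -/
lemma homEqNumIn_middle [Algebra W.K ℝ] (Ψ : HodgeStr W) {m : ℕ} (hm : 2 * m = Y.dim)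
    (h : HomEqNumIn W Y (m + 1)) : HomEqNumIn W Y m := by
  obtain ⟨_, ⟨L, hL, rfl⟩, hpol⟩ := Ψ.polar Y
  rw [homEqNumIn_iff] at h ⊢
  intro z hz
  by_contra hne
  have hcl := W.cl_mem hz.1
  have h1 : W.cl Y L * W.cl Y z = 0 := by
    by_cases hm1 : m + 1 ≤ Y.dim
    · have := hz.mul hL (by omega)
      rw [add_comm] at this
      rw [← W.cl_mul]
      exact h _ this
    · have h2 := W.mul_mem (W.cl_mem hL) hcl
      rw [W.gr_eq_bot Y _ (by omega)] at h2
      exact (Submodule.mem_bot _).1 h2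
  have h2 := hpol.pos m (by omega) (W.cl Y z) hcl ((Ψ.action Y).cyc m _ ⟨z, hz.1, rfl⟩) (by
    rw [show Y.dim - 2 * m + 1 = 1 by omega, pow_one, h1]) hne
  rw [show Y.dim - 2 * m = 0 by omega, pow_zero, one_mul,
    hz.2 z (by rw [show Y.dim - m = m by omega]; exact hz.1), map_zero, mul_zero] at h2
  exact lt_irrefl _ h2

/-- Conjecture D outside the middle codimension -/
lemma outside_middle {L : Y.Cycles} (hL : Y.IsCyc 1 L)
    (hHL : HardLef (W.gr Y) Y.dim (LinearMap.mulLeft W.K (W.cl Y L)))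
    (h : ∀ j, 2 * j < Y.dim → HomEqNumIn W Y (Y.dim - j)) {q : ℕ} (hq : 2 * q ≠ Y.dim) :
    HomEqNumIn W Y q := by
  rcases Nat.lt_or_ge (2 * q) Y.dim with h1 | h1
  · exact homEqNumIn_of_hard hL hHL h1.le (h q h1)
  · by_cases h2 : q ≤ Y.dim
    · have := h (Y.dim - q) (by omega)
      rwa [show Y.dim - (Y.dim - q) = q by omega] at this
    · rw [homEqNumIn_iff]
      exact fun z hz => cl_zero_of_lt (by omega) hz.1

/-- Conjecture D -/
lemma homEqNum_of_low [Algebra W.K ℝ] (Ψ : HodgeStr W)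
    (h : ∀ j, 2 * j < Y.dim → HomEqNumIn W Y (Y.dim - j)) : HomEqNum W Y := by
  obtain ⟨_, ⟨L, hL, rfl⟩, hpol⟩ := Ψ.polar Y
  have h1 : ∀ q, 2 * q ≠ Y.dim → HomEqNumIn W Y q := fun q hq =>
    outside_middle hL hpol.hard h hq
  rw [homEqNum_iff]
  intro q
  by_cases hq : 2 * q = Y.dim
  · exact homEqNumIn_middle Ψ hq (h1 _ (by omega))
  · exact h1 q hq

end Pool.Agent.Helper4.LS
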