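import Pool.Agent.Helper4.LS.Known
import Pool.Agent.Helper4.LS.Defs

/-!
# Proof of `MP_5f0950_ag.CompleteIntersections`
-/

set_option autoImplicit false

open CategoryTheory AlgebraicGeometry

universe u v

namespace Pool.Agent.Helper4.LS

open Pool.Agent.H914 VarClass Obj WeilCohomology Pool.Agent.H447 Pool.Agent.K7.H8
open Pool.Agent.Y133.Hdg (HodgeStr HodgeIn)

section lemmas

variable {k : Type u} [Field k] {𝒱 : VarClass k} {ops : CycleOps 𝒱}
  {W : WeilCohomology.{u, v} ops} {X Y : 𝒱.Obj}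

lemma below {P : 𝒱.Obj → ℕ → Prop}
    (hP : ∀ T i, i ≤ T.dim → P T i → ∀ a ∈ W.gr T (2 * i),
      a ∈ Submodule.span W.K (Transported W T i)) (h : SpannedBelow W P Y) :
    ∀ j, 2 * j < Y.dim → HomEqNumIn W Y (Y.dim - j) := by
  intro j hj
  exact homEqNumIn_of_transported (by omega) fun b hb =>
    span_imagesOf hP (h j hj hb)

lemma below_dim (h : SpannedBelow W (fun T i => HomEqNumIn W T (T.dim - i)) Y) :
    ∀ j, 2 * j < Y.dim → HomEqNumIn W Y (Y.dim - j) :=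
  below (fun _ _ hi hT _ ha => Submodule.subset_span
    (transported_of_homEqNumIn hi hT ha)) h

lemma spanned_of (h : ∀ q, 2 * q ≠ Y.dim → HomEqNumIn W Y q) :
    SpannedBelow W (fun T i => HomEqNumIn W T (T.dim - i)) Y := by
  intro j hj b hb
  exact Submodule.subset_span (transported_of_homEqNumIn (by omega)
    (h _ (by omega)) hb)

lemma below_known {a b : ℕ} (ha : ∀ Y : 𝒱.Obj, ∀ i ≤ a, HomEqNumIn W Y i)
    (hb : ∀ Y : 𝒱.Obj, ∀ i, Y.dim ≤ i + b → HomEqNumIn W Y i)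
    (h : SpannedBelow W (Known W a b) Y) :
    ∀ j, 2 * j < Y.dim → HomEqNumIn W Y (Y.dim - j) := by
  refine below (fun T i hi hT x hx => known_transported ha hb hi ?_ x hx) h
  unfold Known DiagonalDecomposes at hT
  rwa [W.cl_push, W.cl_fund] at hT

lemma known_of_le {a b : ℕ}
    (h : HomEqNum W X ∨ ∃ s, DiagonalDecomposes W X (a + b + 1) s ∧
      Y.dim ≤ 2 * (s + b + 2)) :
    ∀ j, 2 * j < Y.dim → j ≤ X.dim → Known W a b X j := by
  intro j hj _
  rcases h with h | ⟨s, hs, h⟩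
  · exact Or.inl h
  · exact Or.inr (Or.inr (Or.inr ⟨s, by omega, hs⟩))

lemma proj_map (f : Y ⟶ X) (l : ℕ) (a : W.H X) :
    proj (W.isInternal Y) l (W.map f a) = W.map f (proj (W.isInternal X) l a) := by
  refine gr_induction (W.isInternal X)
    (p := fun a => proj (W.isInternal Y) l (W.map f a) = W.map f (proj (W.isInternal X) l a)) ?_ ?_ a
  · intro i a ha
    by_cases hi : i = l
    · subst hi
      rw [proj_same _ ha, proj_same _ (W.map_mem f ha)]
    · rw [proj_ne _ ha hi, proj_ne _ (W.map_mem f ha) hi, map_zero]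
  · intro a b ha hb
    rw [map_add, map_add, map_add, map_add, ha, hb]

lemma below_lefschetz {a b : ℕ} (ha : ∀ Y : 𝒱.Obj, ∀ i ≤ a, HomEqNumIn W Y i)
    (hb : ∀ Y : 𝒱.Obj, ∀ i, Y.dim ≤ i + b → HomEqNumIn W Y i) (f : Y ⟶ X)
    (hf : EvenLefschetz W f)
    (h : HomEqNum W X ∨ ∃ s, DiagonalDecomposes W X (a + b + 1) s ∧
      Y.dim ≤ 2 * (s + b + 2)) :
    ∀ j, 2 * j < Y.dim → HomEqNumIn W Y (Y.dim - j) := by
  intro j hj
  refine homEqNumIn_of_transported (by omega) fun y hy => ?_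
  obtain ⟨x', hx'⟩ := hf j hj y hy
  obtain ⟨x, hx, rfl⟩ : ∃ x ∈ W.gr X (2 * j), W.map f x = y :=
    ⟨_, proj_mem (W.isInternal X) (2 * j) x', by
      rw [← proj_map, hx', proj_same _ hy]⟩
  by_cases hjX : j ≤ X.dim
  · apply map_span
    have hK := known_of_le (a := a) (b := b) h j hj hjX
    refine known_transported ha hb hjX ?_ x hx
    unfold Known DiagonalDecomposes at hK
    rwa [W.cl_push, W.cl_fund] at hK
  · rw [W.gr_eq_bot X _ (by omega)] at hx
    rw [(Submodule.mem_bot _).1 hx, map_zero]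
    exact Submodule.zero_mem _

end lemmas

theorem main {k : Type u} [Field k] {𝒱 : VarClass k} {ops : CycleOps 𝒱}
    (W : WeilCohomology.{u, v} ops) :
    (∀ [Algebra W.K ℝ] (Ψ : HodgeStr W) (Y : 𝒱.Obj),
      (SpannedBelow W (fun T i => HomEqNumIn W T (T.dim - i)) Y ↔ HomEqNum W Y) ∧
      ((∀ T : 𝒱.Obj, HodgeIn Ψ T 1) →
        (SpannedBelow W (Known W 2 1) Y → HomEqNum W Y) ∧
        ∀ (X : 𝒱.Obj) (f : Y ⟶ X), EvenLefschetz W f →
          (HomEqNum W X ∨ ∃ s, DiagonalDecomposes W X 4 s ∧ Y.dim ≤ 2 * s + 6) →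
          HomEqNum W Y)) ∧
    (∀ (Y : 𝒱.Obj) (E : Y.Cycles), Y.IsCyc 1 E → HardLefschetz W Y E →
      (SpannedBelow W (fun T i => HomEqNumIn W T (T.dim - i)) Y ↔
        ∀ q, 2 * q ≠ Y.dim → HomEqNumIn W Y q) ∧
      ((∀ T : 𝒱.Obj, ∀ i ≤ 1, HomEqNumIn W T i) →
        (SpannedBelow W (Known W 1 0) Y → ∀ q, 2 * q ≠ Y.dim → HomEqNumIn W Y q) ∧
        ∀ (X : 𝒱.Obj) (f : Y ⟶ X), EvenLefschetz W f →
          (HomEqNum W X ∨ ∃ s, DiagonalDecomposes W X 2 s ∧ Y.dim ≤ 2 * s + 4) →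
          ∀ q, 2 * q ≠ Y.dim → HomEqNumIn W Y q)) := by
  refine ⟨?_, ?_⟩
  · intro _ Ψ Y
    refine ⟨⟨fun h => homEqNum_of_low Ψ (below_dim h),
      fun h => spanned_of fun q _ => homEqNum_iff.1 h q⟩, fun h11 => ⟨fun h => ?_, ?_⟩⟩
    · exact homEqNum_of_low Ψ (below_known
        (fun Y i hi => homEqNumIn_of_lefschetz (h11 Y) (Or.inl hi))
        (fun Y i hi => homEqNumIn_of_lefschetz (h11 Y) (Or.inr hi)) h)
    · intro X f hf h
      refine homEqNum_of_low Ψ (below_lefschetz (a := 2) (b := 1)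
        (fun Y i hi => homEqNumIn_of_lefschetz (h11 Y) (Or.inl hi))
        (fun Y i hi => homEqNumIn_of_lefschetz (h11 Y) (Or.inr hi)) f hf ?_)
      rcases h with h | ⟨s, hs, h⟩
      · exact Or.inl h
      · exact Or.inr ⟨s, hs, by omega⟩
  · intro Y E hE hHL
    refine ⟨⟨fun h q hq => outside_middle hE hHL (below_dim h) hq, spanned_of⟩,
      fun hM => ?_⟩
    have hb : ∀ Y : 𝒱.Obj, ∀ i, Y.dim ≤ i + 0 → HomEqNumIn W Y i := by
      intro Y i hi
      rcases Nat.lt_or_ge Y.dim i with h1 | h1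
      · rw [homEqNumIn_iff]
        exact fun z hz => cl_zero_of_lt h1 hz.1
      · obtain rfl : i = Y.dim := by omega
        exact homEqNumIn_top
    refine ⟨fun h q hq => ?_, fun X f hf h q hq => ?_⟩
    · exact outside_middle hE hHL (below_known hM hb h) hq
    · refine outside_middle hE hHL (below_lefschetz (a := 1) (b := 0) hM hb f hf ?_) hq
      rcases h with h | ⟨s, hs, h⟩
      · exact Or.inl h
      · exact Or.inr ⟨s, hs, by omega⟩

end Pool.Agent.Helper4.LS
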